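import Pool.Agent.Helper3.EL.Defs
import Pool.Agent.Helper55.TL.MainOf

/-!
# Project EL, module P: the entropy inequality
-/

set_option autoImplicit false

namespace Pool.Agent.Helper3.EL

open Finset Pool.Agent.Lead.TB Pool.Agent.Lead.TB.Halves Pool.Agent.Helper84.TL

theorem h20_rg_card {n k : ℕ} (lam : (Fin k → Bool) ↪ Fin n) : (rg lam).card = 2 ^ k := by
  simp [rg]

theorem h20_rg_disj {n k : ℕ} {T₃ : Finset (Fin n)} (e : Emb k T₃) :
    Disjoint T₃ (rg (sy e)) := by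
  rw [disjoint_left]
  intro s hs hs'
  simp only [rg, mem_map, mem_univ, true_and] at hs'
  obtain ⟨x, hx⟩ := hs'
  exact (e x).2 (by rw [← hx] at hs; exact hs)

/-- The entropy inequality (module EL-P), from the statements of EL-D, EL-F, EL-G, EL-O. -/
theorem main_ineq_of {n k : ℕ}
    (clsLow : ∀ (c : ℕ) (L : Fin n → Equiv.Perm (Fin n)), L ∈ ls n →
      ∀ S : Finset (Fin n), S.card = c + 2 ^ k →
      n * ∑ j ∈ Icc (2 ^ k + 1) (c + 2 ^ k), (Real.log j - 1) + n * Real.log (KK k) ≤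
        Real.log ((cls L S).card : ℝ))
    (gibbsTree : ∀ E : Finset (Fin n → Equiv.Perm (Fin n)), E ⊆ ls n →
      ∀ lam : (Fin k → Bool) ↪ Fin n,
      ∑ L ∈ E, Real.log ((E ∩ cls L (rg lam)).card : ℝ) ≤
        ∑ L ∈ E, (n * Real.log (KK k) + Real.log 2 * tw k (fun x => L (lam x))))
    (gibbsT : ∀ (E : Finset (Fin n → Equiv.Perm (Fin n))) (T₁ T₂ T₃ Y : Finset (Fin n)),
      E ⊆ emp T₁ T₂ T₃ → Disjoint T₃ Y → T₃.card ≤ Y.card → 1 ≤ Y.card →
      ∑ L ∈ E, Real.log ((E ∩ cls L (T₃ ∪ Y)).card : ℝ) ≤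
        ∑ L ∈ E, (n * ∑ j ∈ Icc (Y.card + 1) (T₃.card + Y.card), Real.log (g j) -
          Real.log 2 * T₃.card / (T₃.card + Y.card : ℕ) * cnt L T₁ T₂ Y +
          Real.log ((E ∩ cls L Y).card : ℝ)))
    (embPos : ∀ T₃ : Finset (Fin n), T₃.card + 2 ^ k ≤ n → 0 < Fintype.card (Emb k T₃))
    (embCnt : ∀ (T₁ T₂ T₃ : Finset (Fin n)), T₃.card + 2 ^ k ≤ n →
      ∀ L : Fin n → Equiv.Perm (Fin n), L ∈ emp T₁ T₂ T₃ →
      (∑ e : Emb k T₃, (cnt L T₁ T₂ (rg (sy e)) : ℝ)) / Fintype.card (Emb k T₃) =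
        2 ^ k / ((n : ℝ) - T₃.card) * ((T₁.card : ℝ) * T₂.card))
    (T₁ T₂ T₃ : Finset (Fin n))
    (E : Finset (Fin n → Equiv.Perm (Fin n))) (hE : E ⊆ emp T₁ T₂ T₃) (hne : E.Nonempty)
    (hn : T₃.card + 2 ^ k ≤ n) (hc : T₃.card ≤ 2 ^ k) (B : ℝ)
    (hB : ∀ L ∈ E, (∑ e : Emb k T₃, tw k (fun x => L (sy e x))) / Fintype.card (Emb k T₃) ≤ B) :
    Real.log ((E.card : ℝ) / (ls n).card) ≤
      n * ∑ j ∈ Icc (2 ^ k + 1) (T₃.card + 2 ^ k), (Real.log (g j) - Real.log j + 1) -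
      Real.log 2 * T₃.card / (T₃.card + 2 ^ k) *
        (2 ^ k / ((n : ℝ) - T₃.card) * ((T₁.card : ℝ) * T₂.card)) + Real.log 2 * B := by
  classical
  have hEls : E ⊆ ls n := fun L hL => (mem_filter.1 (hE hL)).1
  have hEpos : (0 : ℝ) < E.card := by exact_mod_cast card_pos.2 hne
  have hM : (0 : ℝ) < Fintype.card (Emb k T₃) := by exact_mod_cast embPos T₃ hn
  have hlog2 : 0 ≤ Real.log 2 := Real.log_nonneg (by norm_num)
  set A : ℝ := Real.log ((E.card : ℝ) / (ls n).card) with hA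
  set P : ℝ := n * ∑ j ∈ Icc (2 ^ k + 1) (T₃.card + 2 ^ k),
    (Real.log (g j) - Real.log j + 1) with hP
  set q : ℝ := Real.log 2 * T₃.card / (T₃.card + 2 ^ k) with hq
  -- the inequality for one family
  have hpt : ∀ e : Emb k T₃, (E.card : ℝ) * A ≤ (E.card : ℝ) * P -
      q * ∑ L ∈ E, (cnt L T₁ T₂ (rg (sy e)) : ℝ) +
      Real.log 2 * ∑ L ∈ E, tw k (fun x => L (sy e x)) := by
    intro e
    have hd := h20_rg_disj e
    have hYc := h20_rg_card (sy e)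
    have h1 := log_sum E hEls (T₃ ∪ rg (sy e))
    have h2 := gibbsT E T₁ T₂ T₃ (rg (sy e)) hE hd (by rw [hYc]; exact hc)
      (by rw [hYc]; exact Nat.one_le_two_pow)
    have h3 := gibbsTree E hEls (sy e)
    have h4 : ∀ L ∈ E, n * ∑ j ∈ Icc (2 ^ k + 1) (T₃.card + 2 ^ k), (Real.log j - 1) +
        n * Real.log (KK k) ≤ Real.log (cls L (T₃ ∪ rg (sy e))).card := fun L hL =>
      clsLow T₃.card L (hEls hL) _ (by rw [card_union_of_disjoint hd, hYc])
    have h5 := sum_le_sum h4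
    rw [hYc] at h2
    rw [sum_const, nsmul_eq_mul] at h5
    rw [sum_sub_distrib] at h1
    rw [sum_add_distrib, sum_sub_distrib, sum_const, nsmul_eq_mul, ← mul_sum] at h2
    rw [sum_add_distrib, sum_const, nsmul_eq_mul, ← mul_sum] at h3
    have hPe : P = n * ∑ j ∈ Icc (2 ^ k + 1) (T₃.card + 2 ^ k), Real.log (g j) -
        n * ∑ j ∈ Icc (2 ^ k + 1) (T₃.card + 2 ^ k), (Real.log j - 1) := by
      rw [hP, ← mul_sub, ← sum_sub_distrib]
      congr 1
      exact sum_congr rfl fun j _ => by ring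
    have hqe : Real.log 2 * T₃.card / ((T₃.card + 2 ^ k : ℕ) : ℝ) = q := by
      rw [hq]; push_cast; rfl
    rw [hqe] at h2
    rw [hPe]
    nlinarith
  have hsum := sum_le_sum fun (e : Emb k T₃) (_ : e ∈ (univ : Finset (Emb k T₃))) => hpt e
  rw [sum_const, nsmul_eq_mul, sum_add_distrib, sum_sub_distrib, sum_const, nsmul_eq_mul,
    ← mul_sum, ← mul_sum, card_univ] at hsum
  -- the empty box
  have hcnt : ∑ e : Emb k T₃, ∑ L ∈ E, (cnt L T₁ T₂ (rg (sy e)) : ℝ) =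
      Fintype.card (Emb k T₃) * ((E.card : ℝ) *
        (2 ^ k / ((n : ℝ) - T₃.card) * ((T₁.card : ℝ) * T₂.card))) := by
    rw [sum_comm]
    have : ∀ L ∈ E, ∑ e : Emb k T₃, (cnt L T₁ T₂ (rg (sy e)) : ℝ) =
        Fintype.card (Emb k T₃) * (2 ^ k / ((n : ℝ) - T₃.card) * ((T₁.card : ℝ) * T₂.card)) := by
      intro L hL
      have := embCnt T₁ T₂ T₃ hn L (hE hL)
      rw [div_eq_iff hM.ne'] at this
      rw [this]; ring
    rw [sum_congr rfl this, sum_const, nsmul_eq_mul]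
    ring
  -- the trees
  have htw : ∑ e : Emb k T₃, ∑ L ∈ E, tw k (fun x => L (sy e x)) ≤
      Fintype.card (Emb k T₃) * ((E.card : ℝ) * B) := by
    rw [sum_comm]
    have : ∀ L ∈ E, ∑ e : Emb k T₃, tw k (fun x => L (sy e x)) ≤
        Fintype.card (Emb k T₃) * B := by
      intro L hL
      have := hB L hL
      rw [div_le_iff₀ hM] at this
      rw [mul_comm]; exact this
    refine (sum_le_sum this).trans ?_
    rw [sum_const, nsmul_eq_mul]
    exact le_of_eq (by ring)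
  rw [hcnt] at hsum
  have h6 := mul_le_mul_of_nonneg_left htw hlog2
  set X : ℝ := 2 ^ k / ((n : ℝ) - T₃.card) * ((T₁.card : ℝ) * T₂.card) with hX
  have h7 : ((Fintype.card (Emb k T₃) : ℝ) * E.card) * A ≤
      ((Fintype.card (Emb k T₃) : ℝ) * E.card) * (P - q * X + Real.log 2 * B) := by
    nlinarith
  exact le_of_mul_le_mul_left h7 (mul_pos hM hEpos)

end Pool.Agent.Helper3.EL
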